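import Pool.Agent.Helper33.QB.Gd2
import Pool.Agent.Helper14.QB.LvlDense

/-!
# Project QB, module MD5: every level is uncountable in the model
-/

set_option autoImplicit false

namespace Pool.Agent.Helper33.QB

open Set Pool.Agent.Helper33.HMG Pool.Agent.Helper32.HB

variable {Ω : Type} [LinearOrder Ω] [WellFoundedLT Ω] {α : Ordinal.{0}} [Fact (Ind α)]
  {b : Ordinal.{0} → NmD Ω Ordinal.{0}} {R : Type}
  {W : R → (ℕ → Nm (CP Ω α b)) → CP Ω α b → Nm (CP Ω α b) → Prop} {a0 : Ω} {g : Gen W}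

omit [Fact (Ind α)] in
theorem h13_omega_le (hα : Ind α) : Ordinal.omega0 ≤ α := by
  have h : ∀ n : ℕ, (n : Ordinal.{0}) < α := by
    intro n
    induction n with
    | zero => exact_mod_cast zero_lt_one.trans hα.one
    | succ n ih =>
      rw [Nat.cast_succ]
      exact hα.add _ ih _ hα.one
  exact Ordinal.omega0_le.2 fun n => (h n).le

theorem Gd.level (hg : Gd a0 g) {β : OM g} (hβ : β.1 < a0) :
    ¬ CtbIn (ltM g) (S2M g) {x | rM g x = β} := by
  rintro ⟨F, ⟨τ, hτ, hF⟩, h1, h2⟩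
  have hα : Ind α := Fact.out
  have := hg.unc
  have hβα : ot β.1 < α := (ot_lt.2 hβ).trans_eq hg.ota
  -- elements of the level
  have hE : ∀ (k : ℕ) (y : OM g), y.1 ∈ (g.pc k).1.Y → (g.pc k).1.r y.1 = ot β.1 →
      y ∈ {x | rM g x = β} := by
    intro k y hy hr
    have h := (hg.ot_rM y).1
    rw [rkM_eq hy, hr] at h
    exact Subtype.ext (ot_inj.1 h)
  -- the requirement lvB
  obtain ⟨l, X, hX, c, y, hy, hc, hr, rfl, hT⟩ := hg.get (.inl .lvB) [τ, ck β.1]
    (by
      intro x hx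
      simp only [List.mem_cons, List.not_mem_nil, or_false] at hx
      rcases hx with rfl | rfl
      · exact hτ
      · exact β.2) (k := 0)
    (by
      intro l _
      obtain ⟨q, hq, y, hy, hr, hT⟩ := lvl_dense hα
        (T := fun q y n => ∃ z : Ω, ot z = (n : Ordinal.{0}) ∧ fmem (opN (ck y) (ck z)) τ q)
        (by
          rintro p q x n hqp ⟨z, hz, hf⟩
          exact ⟨z, hz, fmem_mono hf hqp⟩) hβα (g.pc l)
      refine ⟨q, hq, ck y, β.1, y, hy, rfl, hr, rfl, ?_⟩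
      intro q' hq' z hz hf
      obtain ⟨n, hn⟩ := Ordinal.lt_omega0.1 hz
      obtain ⟨y', hy', hne, hr', z', hz', hf'⟩ := hT q' hq' n ⟨z, hn, hf⟩
      have : z' = z := ot_inj.1 (hz'.trans hn.symm)
      subst this
      exact ⟨y', hy', hne, hr', hf'⟩)
  have hc' : β.1 = c := ck_inj hc
  subst hc'
  -- the value of `y`
  obtain ⟨z, hz, hyz⟩ := h1 ⟨y, hX⟩ (hE l ⟨y, hX⟩ hy hr)
  have hzω : ot z.1 < Ordinal.omega0 := by
    have hfin : ∀ x : Ω, x ≤ a0 → x ≤ z.1 → (Iio x).Finite := by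
      intro x hx hxz
      refine (hz.image Subtype.val).subset ?_
      intro w hw
      exact ⟨⟨w, hg.ck_mem (hw.le.trans hx)⟩, lt_of_lt_of_le hw hxz, rfl⟩
    rcases le_total z.1 a0 with h | h
    · exact ot_fin.2 (hfin _ h le_rfl)
    · exfalso
      have h3 := ot_fin.2 (hfin a0 le_rfl h)
      rw [hg.ota] at h3
      exact absurd h3 (not_lt.2 (h13_omega_le hα))
  obtain ⟨k, hk⟩ := (hF _ _).1 hyz
  -- the requirement lvC
  obtain ⟨l', X', hX', c', y1, z1, y', hy', hc1, hc2, hc3, hne, hr', hf', rfl⟩ :=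
    hg.get (.inl .lvC) [τ, ck β.1, ck y, ck z.1]
    (by
      intro x hx
      simp only [List.mem_cons, List.not_mem_nil, or_false] at hx
      rcases hx with rfl | rfl | rfl | rfl
      · exact hτ
      · exact β.2
      · exact hX
      · exact z.2) (k := max l k)
    (by
      intro m hm
      obtain ⟨y', hy', hne, hr', hf'⟩ := hT (g.pc m) (g.pc_le ((le_max_left _ _).trans hm)) z.1
        hzω (fmem_mono hk (g.pc_le ((le_max_right _ _).trans hm)))
      exact ⟨g.pc m, le_rfl, ck y', β.1, y, z.1, y', hy', rfl, rfl, rfl, hne, hr', hf', rfl⟩)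
  have e1 : β.1 = c' := ck_inj hc1
  have e2 : y = y1 := ck_inj hc2
  have e3 : z.1 = z1 := ck_inj hc3
  subst e1 e2 e3
  have h5 := h2 ⟨y', hX'⟩ (hE l' ⟨y', hX'⟩ hy' hr') ⟨y, hX⟩ (hE l ⟨y, hX⟩ hy hr) z
    ((hF _ _).2 ⟨l', hf'⟩) hyz
  exact hne (congrArg Subtype.val h5)

end Pool.Agent.Helper33.QB
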