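import Pool.Agent.Helper33.QB.Gd2

/-!
# Project QB, module MD6: the ring of the generic space
-/

set_option autoImplicit false

namespace Pool.Agent.Helper33.QB

open Set Pool.Agent.Helper33.HMG Pool.Agent.Helper32.HB

variable {Ω : Type} [LinearOrder Ω] [WellFoundedLT Ω] {α : Ordinal.{0}} [Fact (Ind α)]
  {b : Ordinal.{0} → NmD Ω Ordinal.{0}} {R : Type}
  {W : R → (ℕ → Nm (CP Ω α b)) → CP Ω α b → Nm (CP Ω α b) → Prop} {a0 : Ω} {g : Gen W}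

omit [LinearOrder Ω] [WellFoundedLT Ω] in
theorem h13_ring_mono {k l : ℕ} (h : k ≤ l) {K : Set Ω} (hK : K ∈ (g.pc k).1.R) :
    K ∈ (g.pc l).1.R :=
  (((CP.le_def.1 (g.pc_le h)).cp.ring K).1 hK).1

omit [LinearOrder Ω] [WellFoundedLT Ω] in
theorem h13_Y_mono {k l : ℕ} (h : k ≤ l) {x : Ω} (hx : x ∈ (g.pc k).1.Y) :
    x ∈ (g.pc l).1.Y :=
  (CP.le_def.1 (g.pc_le h)).cp.sub hx

theorem Gd.rring1 (hg : Gd a0 g) : ∅ ∈ RM g ∧ (∀ K ∈ RM g, ∀ K' ∈ RM g, K ∪ K' ∈ RM g) ∧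
    (∀ K ∈ RM g, ∀ K' ∈ RM g, K \ K' ∈ RM g) ∧ (∀ x, ∃ K ∈ RM g, x ∈ K) ∧
    ∀ x y, x ≠ y → ∃ K ∈ RM g, x ∈ K ∧ y ∉ K := by
  refine ⟨?_, ?_, ?_, ?_, ?_⟩
  · obtain ⟨k, K, hK, -, hN⟩ := hg.cov ⟨a0, hg.ck_mem le_rfl⟩
    refine ⟨∅, ?_, ⟨k, (g.pc k).basic.gr.emp⟩, fun x => ?_⟩
    · have h := hg.dfN hN hN
      rwa [sdiff_self] at h
    · simp
  · rintro K ⟨K0, h1, ⟨k, h2⟩, h3⟩ K' ⟨K0', h1', ⟨k', h2'⟩, h3'⟩
    refine ⟨K0 ∪ K0', hg.unN h1 h1', ⟨max k k', (g.pc _).basic.gr.un _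
      (h13_ring_mono (le_max_left _ _) h2) _ (h13_ring_mono (le_max_right _ _) h2')⟩, fun x => ?_⟩
    rw [mem_union, mem_union, h3, h3']
  · rintro K ⟨K0, h1, ⟨k, h2⟩, h3⟩ K' ⟨K0', h1', ⟨k', h2'⟩, h3'⟩
    refine ⟨K0 \ K0', hg.dfN h1 h1', ⟨max k k', (g.pc _).basic.gr.df _
      (h13_ring_mono (le_max_left _ _) h2) _ (h13_ring_mono (le_max_right _ _) h2')⟩, fun x => ?_⟩
    rw [mem_sdiff, mem_sdiff, h3, h3']
  · intro x
    obtain ⟨k, K, hK, hx, hN⟩ := hg.cov x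
    exact ⟨{y | y.1 ∈ K}, ⟨K, hN, ⟨k, hK⟩, fun _ => Iff.rfl⟩, hx⟩
  · intro x y hxy
    have hxy' : x.1 ≠ y.1 := fun h => hxy (Subtype.ext h)
    obtain ⟨k1, hk1⟩ := hg.memY x
    obtain ⟨k2, hk2⟩ := hg.memY y
    obtain ⟨l, X, hX, x', y', K, hK, e1, e2, hx, hy, rfl⟩ := hg.get (.inl .sep) [ck x.1, ck y.1]
      (by
        intro z hz
        simp only [List.mem_cons, List.not_mem_nil, or_false] at hz
        rcases hz with rfl | rfl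
        · exact x.2
        · exact y.2) (k := max k1 k2)
      (by
        intro l hl
        obtain ⟨K, hK, h1, h2⟩ := (g.pc l).basic.gr.sep x.1
          (h13_Y_mono ((le_max_left _ _).trans hl) hk1) y.1
          (h13_Y_mono ((le_max_right _ _).trans hl) hk2) hxy'
        exact ⟨g.pc l, le_rfl, ckS K, x.1, y.1, K, hK, rfl, rfl, h1, h2, rfl⟩)
    have e1' : x.1 = x' := ck_inj e1
    have e2' : y.1 = y' := ck_inj e2
    subst e1' e2'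
    exact ⟨{z | z.1 ∈ K}, ⟨K, hX, ⟨l, hK⟩, fun _ => Iff.rfl⟩, hx, hy⟩

theorem h13_rM_lt (hg : Gd a0 g) {l : ℕ} {x y : OM g} (hx : x.1 ∈ (g.pc l).1.Y)
    (hy : y.1 ∈ (g.pc l).1.Y) :
    ltM g (rM g x) (rM g y) ↔ (g.pc l).1.r x.1 < (g.pc l).1.r y.1 := by
  rw [← rkM_eq hx, ← rkM_eq hy, ← (hg.ot_rM x).1, ← (hg.ot_rM y).1, ot_lt]
  rfl

theorem h13_rM_eq (hg : Gd a0 g) {l : ℕ} {x y : OM g} (hx : x.1 ∈ (g.pc l).1.Y)
    (hy : y.1 ∈ (g.pc l).1.Y) :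
    rM g x = rM g y ↔ (g.pc l).1.r x.1 = (g.pc l).1.r y.1 := by
  rw [← rkM_eq hx, ← rkM_eq hy, ← (hg.ot_rM x).1, ← (hg.ot_rM y).1, ot_inj]
  exact ⟨fun h => congrArg Subtype.val h, fun h => Subtype.ext h⟩

theorem Gd.rring2 (hg : Gd a0 g) : (∀ K ∈ RM g, K.Nonempty →
      ∃ x ∈ K, (∀ y ∈ K, ¬ ltM g (rM g x) (rM g y)) ∧ {y | y ∈ K ∧ rM g y = rM g x}.Finite) ∧
    ∀ K ∈ RM g, ∀ x ∈ K, ∀ β, ltM g β (rM g x) → ∃ y ∈ K, y ≠ x ∧ ¬ ltM g (rM g y) β := by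
  refine ⟨?_, ?_⟩
  · rintro K ⟨K0, h1, ⟨k, h2⟩, h3⟩ ⟨z, hz⟩
    obtain ⟨l, X, hX, K1, hK1, x, hx, e1, hmax, rfl⟩ := hg.get (.inl .top) [ckS K0]
      (by
        intro w hw
        simp only [List.mem_cons, List.not_mem_nil, or_false] at hw
        rcases hw with rfl
        exact h1) (k := k)
      (by
        intro l hl
        have hK := h13_ring_mono (g := g) hl h2
        obtain ⟨x, hx, hm, -⟩ := (g.pc l).basic.gr.top K0 hK ⟨z.1, (h3 z).1 hz⟩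
        exact ⟨g.pc l, le_rfl, ck x, K0, hK, x, hx, rfl, hm, rfl⟩)
    have e1' : K0 = K1 := ckS_inj e1
    subst e1'
    have hsub := (g.pc l).basic.gr.sub K0 hK1
    refine ⟨⟨x, hX⟩, (h3 _).2 hx, ?_, ?_⟩
    · intro y hy hlt
      exact absurd (hmax _ ((h3 y).1 hy)) (not_le.2 ((h13_rM_lt hg (x := ⟨x, hX⟩) (hsub hx)
        (hsub ((h3 y).1 hy))).1 hlt))
    · obtain ⟨x', hx', hm', hfin⟩ := (g.pc l).basic.gr.top K0 hK1 ⟨x, hx⟩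
      have hr : (g.pc l).1.r x = (g.pc l).1.r x' := le_antisymm (hm' x hx) (hmax x' hx')
      refine (hfin.preimage (f := fun y : OM g => y.1) Subtype.val_injective.injOn).subset ?_
      rintro y ⟨hy, hyr⟩
      refine ⟨(h3 y).1 hy, ?_⟩
      rw [← hr]
      exact (h13_rM_eq hg (hsub ((h3 y).1 hy)) (hsub hx)).1 hyr
  · rintro K ⟨K0, h1, ⟨k, h2⟩, h3⟩ x hx β hβ
    have hβ' : ∀ l ≥ k, ot β.1 < (g.pc l).1.r x.1 := by
      intro l hl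
      have hxY := (g.pc l).basic.gr.sub K0 (h13_ring_mono (g := g) hl h2) ((h3 x).1 hx)
      rw [← rkM_eq hxY, ← (hg.ot_rM x).1]
      exact ot_lt.2 hβ
    obtain ⟨l, X, hX, K1, hK1, x', c, y, hy, e1, e2, e3, hne, hc, rfl⟩ :=
      hg.get (.inl .ex) [ckS K0, ck x.1, ck β.1]
      (by
        intro w hw
        simp only [List.mem_cons, List.not_mem_nil, or_false] at hw
        rcases hw with rfl | rfl | rfl
        · exact h1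
        · exact x.2
        · exact β.2) (k := k)
      (by
        intro l hl
        have hK := h13_ring_mono (g := g) hl h2
        obtain ⟨y, hy, hne, hr⟩ := (g.pc l).basic.gr.ex K0 hK x.1 ((h3 x).1 hx) _ (hβ' l hl)
        exact ⟨g.pc l, le_rfl, ck y, K0, hK, x.1, β.1, y, hy, rfl, rfl, rfl, hne, hr, rfl⟩)
    have e1' : K0 = K1 := ckS_inj e1
    have e2' : x.1 = x' := ck_inj e2
    have e3' : β.1 = c := ck_inj e3
    subst e1' e2' e3'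
    refine ⟨⟨y, hX⟩, (h3 _).2 hy, fun h => hne (congrArg Subtype.val h), ?_⟩
    intro hlt
    have hyY := (g.pc l).basic.gr.sub K0 hK1 hy
    have h4 : ot (rM g ⟨y, hX⟩).1 < ot β.1 := ot_lt.2 hlt
    rw [(hg.ot_rM ⟨y, hX⟩).1, rkM_eq (x := y) hyY] at h4
    exact absurd hc (not_le.2 h4)

end Pool.Agent.Helper33.QB
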